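import Pool.Agent.H7.RhoV.FinalV

/-!
There is a constant `C` such that for all sufficiently large `y` there is an admissible set
`A ⊆ {1, ..., y}` with at least `π(y) + (2 log log log y - C) y / (log y)^2` elements.

(Hensley and Richards, 1973: `log 2 - ε` in place of `2 log log log y - C`.)
-/

set_option autoImplicit false

open Finset Real

namespace Pool.Agent.Results.MP_5046ca_nt.DenseAdmissibleSharp

theorem result :
    ∃ C : ℝ, ∃ Y : ℕ, ∀ y : ℕ, Y ≤ y → ∃ A : Finset ℕ, A ⊆ Finset.Icc 1 y ∧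
      (∀ p : ℕ, p.Prime → ∃ r : ℕ, ∀ a ∈ A, ¬ a ≡ r [MOD p]) ∧
      (Nat.primeCounting y : ℝ) +
          (2 * Real.log (Real.log (Real.log y)) - C) * y / (Real.log y) ^ 2 ≤ A.card := by
  obtain ⟨C, hC⟩ := RhoV.dense_V
  obtain ⟨Y, hY⟩ := Filter.eventually_atTop.1 hC
  refine ⟨C, Y, fun y hy => ?_⟩
  obtain ⟨A, h1, h2, h3⟩ := hY y hy
  exact ⟨A, h1, h2, h3⟩

end Pool.Agent.Results.MP_5046ca_nt.DenseAdmissibleSharp
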